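import Pool.Agent.K1H79.Q3.StmA
import Pool.Agent.H373R2.T4.DivB

/-!
# Project Q3 (helper79), piece S_MOMof: the moments from the complete sums
-/

set_option autoImplicit false

namespace Pool.Agent.K1H69.Q3

open Finset Pool.Agent.K1H79.Q3

theorem two_pow_le_div {a : ℕ} (ha : a ≠ 0) :
    (2 : ℝ) ^ a.primeFactors.card ≤ (a.divisors.card : ℝ) := by
  have h : 2 ^ a.primeFactors.card ≤ a.divisors.card := by
    rw [← Finset.card_powerset]
    refine Finset.card_le_card_of_injOn (fun s => ∏ p ∈ s, p) ?_ ?_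
    · intro s hs
      rw [Finset.mem_coe, Finset.mem_powerset] at hs
      rw [Finset.mem_coe, Nat.mem_divisors]
      refine ⟨(Finset.prod_dvd_prod_of_subset _ _ _ hs).trans (Nat.prod_primeFactors_dvd a), ha⟩
    · intro s hs t ht hst
      rw [Finset.mem_coe, Finset.mem_powerset] at hs ht
      have e : ∀ u ⊆ a.primeFactors, (∏ p ∈ u, p).primeFactors = u := fun u hu =>
        Nat.primeFactors_prod fun p hp => Nat.prime_of_mem_primeFactors (hu hp)
      simp only at hst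
      rw [← e s hs, ← e t ht, hst]
  exact_mod_cast h

/-- the arithmetic factors are small -/
theorem fac_bound (K : ℝ) (hK : 1 ≤ K) (m : ℕ) (ε : ℝ) (hε : 0 < ε) : ∃ C : ℝ, 0 < C ∧
    ∀ n : ℕ, n ≠ 0 → K ^ n.primeFactors.card * (n.divisors.card : ℝ) ^ m ≤ C * (n : ℝ) ^ ε := by
  obtain ⟨k, hk⟩ : ∃ k : ℕ, K < 2 ^ k := pow_unbounded_of_one_lt K (by norm_num)
  have hδ : 0 < ε / (k + m + 1) := by positivity
  obtain ⟨C, hC1, hC⟩ := Pool.Agent.H373R2.T4.DivB.div_bound hδ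
  refine ⟨C ^ (k + m), by positivity, fun n hn => ?_⟩
  have hn1 : (1 : ℝ) ≤ n := by exact_mod_cast Nat.one_le_iff_ne_zero.2 hn
  have h1 : K ^ n.primeFactors.card ≤ (n.divisors.card : ℝ) ^ k := by
    calc K ^ n.primeFactors.card ≤ (2 ^ k : ℝ) ^ n.primeFactors.card :=
          pow_le_pow_left₀ (by linarith) hk.le _
      _ = ((2 : ℝ) ^ n.primeFactors.card) ^ k := by rw [← pow_mul, ← pow_mul, mul_comm]
      _ ≤ _ := pow_le_pow_left₀ (by positivity) (two_pow_le_div hn) _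
  calc K ^ n.primeFactors.card * (n.divisors.card : ℝ) ^ m
      ≤ (n.divisors.card : ℝ) ^ k * (n.divisors.card : ℝ) ^ m :=
        mul_le_mul_of_nonneg_right h1 (by positivity)
    _ = (n.divisors.card : ℝ) ^ (k + m) := by rw [pow_add]
    _ ≤ (C * (n : ℝ) ^ (ε / (k + m + 1))) ^ (k + m) :=
        pow_le_pow_left₀ (by positivity) (hC n hn) _
    _ = C ^ (k + m) * (n : ℝ) ^ (ε / (k + m + 1) * ((k + m : ℕ) : ℝ)) := by
        rw [mul_pow, ← Real.rpow_natCast ((n : ℝ) ^ (ε / (k + m + 1))), ← Real.rpow_mul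
          (by positivity)]
    _ ≤ C ^ (k + m) * (n : ℝ) ^ ε := by
        apply mul_le_mul_of_nonneg_left _ (by positivity)
        apply Real.rpow_le_rpow_of_exponent_le hn1
        rw [div_mul_eq_mul_div, div_le_iff₀ (by positivity)]
        push_cast
        nlinarith

/-- tuples without a unique entry -/
theorem tup (r B : ℕ) (hr : 1 ≤ r) :
    (univ.filter fun w : Fin (2 * r) → Fin B => ¬ ∃ j, ∀ i, i ≠ j → w i ≠ w j).card ≤
      r ^ (2 * r) * B ^ r := by
  classical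
  let Φ : (Fin r → Fin B) × (Fin (2 * r) → Fin r) → (Fin (2 * r) → Fin B) :=
    fun w => fun i => w.1 (w.2 i)
  have hsub : (univ.filter fun w : Fin (2 * r) → Fin B => ¬ ∃ j, ∀ i, i ≠ j → w i ≠ w j) ⊆
      univ.image Φ := by
    intro h hh
    rw [mem_filter] at hh
    have hU := hh.2
    push Not at hU
    let I : Finset (Fin B) := univ.image h
    have hfib : ∀ v ∈ I, 2 ≤ (univ.filter fun z => h z = v).card := by
      intro v hv
      obtain ⟨z, _, hz⟩ := mem_image.1 hv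
      obtain ⟨i, hi, hi'⟩ := hU z
      have : 1 < (univ.filter fun z => h z = v).card := by
        rw [Finset.one_lt_card]
        exact ⟨i, by simp [hi', hz], z, by simp [hz], hi⟩
      omega
    have hI : I.card ≤ r := by
      have e1 : (univ : Finset (Fin (2 * r))).card = ∑ v ∈ I, (univ.filter fun z => h z = v).card :=
        Finset.card_eq_sum_card_image h univ
      have e2 : (univ : Finset (Fin (2 * r))).card = 2 * r := by simp
      have e3 : I.card * 2 ≤ ∑ v ∈ I, (univ.filter fun z => h z = v).card := by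
        rw [← smul_eq_mul]
        exact Finset.card_nsmul_le_sum I _ 2 hfib
      omega
    have hne : I.Nonempty := ⟨h ⟨0, by omega⟩, mem_image_of_mem _ (mem_univ _)⟩
    obtain ⟨e, he⟩ : ∃ e : Fin r → Fin B, ∀ v ∈ I, ∃ j, e j = v := by
      obtain ⟨v0, hv0⟩ := hne
      let q := I.equivFin
      refine ⟨fun j => if hj : (j : ℕ) < I.card then (q.symm ⟨j, hj⟩ : Fin B) else v0, ?_⟩
      intro v hv
      refine ⟨⟨q ⟨v, hv⟩, lt_of_lt_of_le (q ⟨v, hv⟩).2 hI⟩, ?_⟩
      simp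
    have hs : ∀ z, ∃ j, e j = h z := fun z => he (h z) (mem_image_of_mem _ (mem_univ _))
    choose s hs using hs
    refine mem_image.2 ⟨(e, s), mem_univ _, ?_⟩
    funext i
    exact hs i
  refine (card_le_card hsub).trans (card_image_le.trans ?_)
  rw [card_univ, Fintype.card_prod, Fintype.card_fun, Fintype.card_fun]
  simp only [Fintype.card_fin]
  rw [mul_comm]

lemma sum_gcd_Ioc (N B : ℕ) (hN : N ≠ 0) : ∑ t ∈ Ioc 0 B, Nat.gcd t N ≤ B * N.divisors.card := by
  calc ∑ t ∈ Ioc 0 B, Nat.gcd t N ≤ ∑ t ∈ Ioc 0 B, ∑ d ∈ N.divisors.filter (fun d => d ∣ t), d := by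
        refine sum_le_sum fun t _ => ?_
        refine Finset.single_le_sum (f := fun d => d) (fun _ _ => Nat.zero_le _) ?_
        rw [mem_filter, Nat.mem_divisors]
        exact ⟨⟨Nat.gcd_dvd_right _ _, hN⟩, Nat.gcd_dvd_left _ _⟩
    _ = ∑ d ∈ N.divisors, ∑ t ∈ (Ioc 0 B).filter (fun t => d ∣ t), d := by
        simp only [sum_filter]
        rw [sum_comm]
    _ ≤ ∑ _d ∈ N.divisors, B := by
        refine sum_le_sum fun d _ => ?_
        rw [sum_const, smul_eq_mul, Nat.Ioc_filter_dvd_card_eq_div]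
        exact Nat.div_mul_le_self B d
    _ = B * N.divisors.card := by rw [sum_const, smul_eq_mul, mul_comm]

/-- the weight of a pair -/
def GG (N v u : ℕ) : ℕ := if u = v then 0 else Nat.gcd ((u : ℤ) - v).natAbs N

lemma sum_GG (N B v : ℕ) (hN : N ≠ 0) (hv : v < B) :
    ∑ u ∈ range B, GG N v u ≤ 2 * B * N.divisors.card := by
  have h1 : ∑ u ∈ range B, GG N v u =
      ∑ u ∈ (range B).filter (fun u => u ≠ v), Nat.gcd ((u : ℤ) - v).natAbs N := by
    rw [sum_filter]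
    refine sum_congr rfl fun u _ => ?_
    unfold GG
    split_ifs with h <;> simp_all
  have hmap : ∀ u ∈ (range B).filter (fun u => u ≠ v), ((u : ℤ) - v).natAbs ∈ Ioc 0 B := by
    intro u hu
    rw [mem_filter, mem_range] at hu
    rw [mem_Ioc]
    omega
  rw [h1, ← Finset.sum_fiberwise_of_maps_to hmap]
  calc ∑ t ∈ Ioc 0 B, ∑ u ∈ ((range B).filter (fun u => u ≠ v)).filter
        (fun u : ℕ => ((u : ℤ) - v).natAbs = t), Nat.gcd ((u : ℤ) - v).natAbs N
        ≤ ∑ t ∈ Ioc 0 B, 2 * Nat.gcd t N := by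
        refine sum_le_sum fun t _ => ?_
        have h2 : ∑ u ∈ ((range B).filter (fun u => u ≠ v)).filter
            (fun u : ℕ => ((u : ℤ) - v).natAbs = t), Nat.gcd ((u : ℤ) - v).natAbs N =
            ∑ _u ∈ ((range B).filter (fun u => u ≠ v)).filter
              (fun u : ℕ => ((u : ℤ) - v).natAbs = t), Nat.gcd t N := by
          refine sum_congr rfl fun u hu => ?_
          rw [(mem_filter.mp hu).2]
        rw [h2, sum_const, smul_eq_mul]
        refine Nat.mul_le_mul_right _ ?_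
        have h3 : ((range B).filter (fun u => u ≠ v)).filter
            (fun u : ℕ => ((u : ℤ) - v).natAbs = t) ⊆ ({v + t, v - t} : Finset ℕ) := by
          intro u hu
          have h4 := (mem_filter.mp hu).2
          rw [mem_insert, mem_singleton]
          omega
        exact (card_le_card h3).trans Finset.card_le_two
    _ = 2 * ∑ t ∈ Ioc 0 B, Nat.gcd t N := by rw [mul_sum]
    _ ≤ 2 * (B * N.divisors.card) := Nat.mul_le_mul_left _ (sum_gcd_Ioc N B hN)
    _ = _ := by ring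

lemma sum_prod_G {ι : Type} [Fintype ι] [DecidableEq ι] (i₀ : ι) (B : ℕ) (G : ℕ → ℕ → ℕ) (C : ℕ)
    (hG : ∀ v < B, ∑ u ∈ range B, G v u ≤ C) :
    ∑ w : ι → Fin B, ∏ j ∈ univ.erase i₀, G (w i₀) (w j) ≤ B * C ^ (Fintype.card ι - 1) := by
  let H : Fin B → ι → Fin B → ℕ := fun v j u => if j = i₀ then (if u = v then 1 else 0) else G v u
  calc ∑ w : ι → Fin B, ∏ j ∈ univ.erase i₀, G (w i₀) (w j)
      ≤ ∑ w : ι → Fin B, ∑ v : Fin B, ∏ j, H v j (w j) := by
        refine sum_le_sum fun w _ => ?_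
        have h1 : ∏ j, H (w i₀) j (w j) = ∏ j ∈ univ.erase i₀, G (w i₀) (w j) := by
          rw [← Finset.mul_prod_erase univ _ (mem_univ i₀)]
          have h2 : H (w i₀) i₀ (w i₀) = 1 := by simp [H]
          rw [h2, one_mul]
          refine prod_congr rfl fun j hj => ?_
          have : j ≠ i₀ := (mem_erase.mp hj).1
          simp [H, this]
        rw [← h1]
        exact Finset.single_le_sum (f := fun v => ∏ j, H v j (w j)) (fun _ _ => Nat.zero_le _)
          (mem_univ (w i₀))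
    _ = ∑ v : Fin B, ∑ w : ι → Fin B, ∏ j, H v j (w j) := sum_comm
    _ = ∑ v : Fin B, ∏ j, ∑ u : Fin B, H v j u := by
        refine sum_congr rfl fun v _ => ?_
        rw [Finset.prod_univ_sum, Fintype.piFinset_univ]
    _ ≤ ∑ _v : Fin B, C ^ (Fintype.card ι - 1) := by
        refine sum_le_sum fun v _ => ?_
        rw [← Finset.mul_prod_erase univ _ (mem_univ i₀)]
        have h2 : ∑ u : Fin B, H v i₀ u = 1 := by simp [H]
        rw [h2, one_mul]
        have h3 : ∏ j ∈ univ.erase i₀, ∑ u : Fin B, H v j u ≤ ∏ _j ∈ univ.erase i₀, C := by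
          refine Finset.prod_le_prod' fun j hj => ?_
          have : j ≠ i₀ := (mem_erase.mp hj).1
          simp only [H, this, if_false]
          rw [← Finset.sum_range (fun u => G v u)]
          exact hG v v.2
        refine h3.trans (le_of_eq ?_)
        rw [prod_const, card_erase_of_mem (mem_univ _), card_univ]
    _ = B * C ^ (Fintype.card ι - 1) := by simp

lemma gcd_prod_le {ι : Type} [DecidableEq ι] (s : Finset ι) (f : ι → ℕ) (N : ℕ) (hN : N ≠ 0) :
    Nat.gcd (∏ i ∈ s, f i) N ≤ ∏ i ∈ s, Nat.gcd (f i) N := by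
  induction s using Finset.induction_on with
  | empty => simp
  | insert a s ha ih =>
    rw [prod_insert ha, prod_insert ha]
    refine le_trans ?_ (Nat.mul_le_mul_left _ ih)
    apply Nat.le_of_dvd
    · exact Nat.mul_pos (Nat.gcd_pos_of_pos_right _ (Nat.pos_of_ne_zero hN))
        (Nat.gcd_pos_of_pos_right _ (Nat.pos_of_ne_zero hN))
    · rw [Nat.gcd_comm _ N, Nat.gcd_comm _ N, Nat.gcd_comm _ N]
      exact Nat.gcd_mul_right_dvd_mul_gcd _ _ _

lemma jac_abs (a : ℤ) (n : ℕ) : |((jacobiSym a n : ℤ) : ℝ)| ≤ 1 := by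
  rcases jacobiSym.trichotomy a n with h | h | h <;> rw [h] <;> norm_num

lemma XR_abs (M g : ℕ) (x : RR M g) : |XR M g x| ≤ 1 := by
  rw [XR, abs_mul]
  exact mul_le_one₀ (jac_abs _ _) (abs_nonneg _) (jac_abs _ _)

lemma card_RR (M g : ℕ) [NeZero M] [NeZero g] : Fintype.card (RR M g) = M * g ^ 2 := by
  have h : Fintype.card (Eg g) = Fintype.card (ZMod g × ZMod g) :=
    Fintype.card_congr (QuadraticAlgebra.equivProd (-1) (-1))
  rw [Fintype.card_prod, h, Fintype.card_prod, ZMod.card, ZMod.card, pow_two]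

open Classical in
theorem t_MOMof : S_MOMof := by
  intro hT r hr ε hε
  obtain ⟨K, hK1, hK⟩ := hT r hr
  obtain ⟨C0, hC0, hC⟩ := fac_bound K hK1 (2 * r - 1) ε hε
  refine ⟨(r : ℝ) ^ (2 * r) + 2 * r * 2 ^ (2 * r - 1) * C0, by positivity, ?_⟩
  intro M g _ _ hG B hB
  set q : ℕ := M * g ^ 2 with hq
  set N : ℕ := M * g with hN
  have hM0 : M ≠ 0 := NeZero.ne M
  have hg0 : g ≠ 0 := NeZero.ne g
  have hN0 : N ≠ 0 := mul_ne_zero hM0 hg0
  have hNq : N ≤ q := by
    rw [hN, hq, pow_two, ← mul_assoc]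
    exact Nat.le_mul_of_pos_right _ (Nat.pos_of_ne_zero hg0)
  have hq1 : (1 : ℝ) ≤ q := by
    have : 1 ≤ q := le_trans (Nat.one_le_iff_ne_zero.2 hN0) hNq
    exact_mod_cast this
  -- expansion
  have hexp : ∑ x : RR M g, |∑ b ∈ range B, XR M g (x + (b : RR M g))| ^ (2 * r) =
      ∑ w : Fin (2 * r) → Fin B, ∑ x : RR M g, ∏ i, XR M g (x + ((w i : ℕ) : RR M g)) := by
    rw [sum_comm]
    refine sum_congr rfl fun x _ => ?_
    rw [Even.pow_abs (even_two_mul r), Finset.sum_range, Fintype.sum_pow]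
  rw [hexp]
  refine (le_abs_self _).trans ((abs_sum_le_sum_abs _ _).trans ?_)
  rw [← Finset.sum_filter_add_sum_filter_not Finset.univ
    (fun w : Fin (2 * r) → Fin B => ¬ ∃ j, ∀ i, i ≠ j → w i ≠ w j)]
  have hA : ∑ w ∈ univ.filter (fun w : Fin (2 * r) → Fin B => ¬ ∃ j, ∀ i, i ≠ j → w i ≠ w j),
      |∑ x : RR M g, ∏ i, XR M g (x + ((w i : ℕ) : RR M g))| ≤
      (r : ℝ) ^ (2 * r) * (B : ℝ) ^ r * q := by
    have h1 : ∀ w ∈ univ.filter (fun w : Fin (2 * r) → Fin B => ¬ ∃ j, ∀ i, i ≠ j → w i ≠ w j),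
        |∑ x : RR M g, ∏ i, XR M g (x + ((w i : ℕ) : RR M g))| ≤ (q : ℝ) := by
      intro w _
      refine (abs_sum_le_sum_abs _ _).trans ?_
      have : ∀ x ∈ (univ : Finset (RR M g)), |∏ i, XR M g (x + ((w i : ℕ) : RR M g))| ≤ 1 := by
        intro x _
        rw [abs_prod]
        exact prod_le_one (fun i _ => abs_nonneg _) (fun i _ => XR_abs M g _)
      refine (sum_le_card_nsmul _ _ _ this).trans (le_of_eq ?_)
      rw [card_univ, card_RR, nsmul_eq_mul, mul_one]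
    refine (sum_le_card_nsmul _ _ _ h1).trans ?_
    rw [nsmul_eq_mul]
    have h2 : (((univ.filter (fun w : Fin (2 * r) → Fin B =>
        ¬ ∃ j, ∀ i, i ≠ j → w i ≠ w j)).card : ℕ) : ℝ) ≤ (r : ℝ) ^ (2 * r) * (B : ℝ) ^ r := by
      have := tup r B hr
      have h3 : ((r ^ (2 * r) * B ^ r : ℕ) : ℝ) = (r : ℝ) ^ (2 * r) * (B : ℝ) ^ r := by push_cast; ring
      rw [← h3]
      refine le_trans (le_of_eq ?_) (Nat.cast_le.2 this)
      congr!
    exact mul_le_mul_of_nonneg_right h2 (Nat.cast_nonneg _)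
  have hBd : ∑ w ∈ univ.filter (fun w : Fin (2 * r) → Fin B => ¬ ¬ ∃ j, ∀ i, i ≠ j → w i ≠ w j),
      |∑ x : RR M g, ∏ i, XR M g (x + ((w i : ℕ) : RR M g))| ≤
      K ^ N.primeFactors.card * √(q : ℝ) *
        (2 * r * (B * (2 * B * N.divisors.card) ^ (2 * r - 1))) := by
    have hc0 : 0 ≤ K ^ N.primeFactors.card * √(q : ℝ) := by positivity
    have h1 : ∀ w ∈ univ.filter (fun w : Fin (2 * r) → Fin B =>
        ¬ ¬ ∃ j, ∀ i, i ≠ j → w i ≠ w j),
        |∑ x : RR M g, ∏ i, XR M g (x + ((w i : ℕ) : RR M g))| ≤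
        K ^ N.primeFactors.card * √(q : ℝ) *
          ((∑ j : Fin (2 * r), ∏ i ∈ univ.erase j, GG N (w j) (w i) : ℕ) : ℝ) := by
      intro w hw
      rw [mem_filter, not_not] at hw
      obtain ⟨j, hj⟩ := hw.2
      have h2 := hK M g hG (fun i => (w i : ℕ)) j (fun i hi h => hj i hi (Fin.ext h))
      refine h2.trans ?_
      apply mul_le_mul_of_nonneg_left _ hc0
      have h3 : Nat.gcd (∏ i ∈ univ.erase j, (((w i : ℕ) : ℤ) - ((w j : ℕ) : ℤ)).natAbs) N ≤
          ∏ i ∈ univ.erase j, GG N (w j) (w i) := by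
        refine (gcd_prod_le _ _ N hN0).trans (le_of_eq ?_)
        refine prod_congr rfl fun i hi => ?_
        unfold GG
        rw [if_neg]
        intro h
        exact hj i (mem_erase.1 hi).1 (Fin.ext h)
      have h4 : ∏ i ∈ univ.erase j, GG N (w j) (w i) ≤
          ∑ j : Fin (2 * r), ∏ i ∈ univ.erase j, GG N (w j) (w i) :=
        Finset.single_le_sum (f := fun j => ∏ i ∈ univ.erase j, GG N (w j) (w i))
          (fun _ _ => Nat.zero_le _) (mem_univ j)
      exact_mod_cast h3.trans h4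
    refine (sum_le_sum h1).trans ?_
    refine (sum_le_sum_of_subset_of_nonneg (filter_subset _ _)
      (fun _ _ _ => mul_nonneg hc0 (Nat.cast_nonneg _))).trans ?_
    rw [← mul_sum, ← Nat.cast_sum]
    apply mul_le_mul_of_nonneg_left _ hc0
    have h5 : (∑ w : Fin (2 * r) → Fin B, ∑ j : Fin (2 * r), ∏ i ∈ univ.erase j,
        GG N (w j) (w i)) ≤ 2 * r * (B * (2 * B * N.divisors.card) ^ (2 * r - 1)) := by
      rw [sum_comm]
      calc _ ≤ ∑ _j : Fin (2 * r), (B * (2 * B * N.divisors.card) ^ (2 * r - 1)) := by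
            refine sum_le_sum fun j _ => ?_
            have h6 := sum_prod_G j B (GG N) (2 * B * N.divisors.card)
              (fun v hv => sum_GG N B v hN0 hv)
            rw [Fintype.card_fin] at h6
            exact h6
        _ = _ := by
            rw [sum_const, card_univ, smul_eq_mul, Fintype.card_fin]
    exact_mod_cast h5
  refine (add_le_add hA hBd).trans ?_
  have hC' := hC N hN0
  have hqε : (1 : ℝ) ≤ (q : ℝ) ^ ε := Real.one_le_rpow hq1 hε.le
  have hNε : (N : ℝ) ^ ε ≤ (q : ℝ) ^ ε :=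
    Real.rpow_le_rpow (Nat.cast_nonneg _) (by exact_mod_cast hNq) hε.le
  have hpow : (B : ℝ) * (B : ℝ) ^ (2 * r - 1) = (B : ℝ) ^ (2 * r) := by
    rw [← pow_succ']
    congr 1
    omega
  have e1 : (r : ℝ) ^ (2 * r) * (B : ℝ) ^ r * q ≤
      (r : ℝ) ^ (2 * r) * ((q : ℝ) ^ ε * ((B : ℝ) ^ r * q)) := by
    have h0 : 0 ≤ (r : ℝ) ^ (2 * r) * ((B : ℝ) ^ r * q) := by positivity
    nlinarith [mul_le_mul_of_nonneg_left hqε h0]
  have e2 : K ^ N.primeFactors.card * √(q : ℝ) *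
        (2 * r * (B * (2 * B * N.divisors.card) ^ (2 * r - 1))) ≤
      (2 * r * 2 ^ (2 * r - 1) * C0) * ((q : ℝ) ^ ε * ((B : ℝ) ^ (2 * r) * √(q : ℝ))) := by
    calc K ^ N.primeFactors.card * √(q : ℝ) *
        (2 * r * (B * (2 * B * N.divisors.card) ^ (2 * r - 1)))
        = (2 * r * 2 ^ (2 * r - 1) * ((B : ℝ) ^ (2 * r) * √(q : ℝ))) *
          (K ^ N.primeFactors.card * (N.divisors.card : ℝ) ^ (2 * r - 1)) := by
          rw [← hpow, mul_pow, mul_pow]
          ring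
      _ ≤ (2 * r * 2 ^ (2 * r - 1) * ((B : ℝ) ^ (2 * r) * √(q : ℝ))) * (C0 * (q : ℝ) ^ ε) := by
          apply mul_le_mul_of_nonneg_left _ (by positivity)
          exact hC'.trans (mul_le_mul_of_nonneg_left hNε hC0.le)
      _ = _ := by ring
  have e3 : 0 ≤ (r : ℝ) ^ (2 * r) * ((q : ℝ) ^ ε * ((B : ℝ) ^ (2 * r) * √(q : ℝ))) := by positivity
  have e4 : 0 ≤ (2 * r * 2 ^ (2 * r - 1) * C0) * ((q : ℝ) ^ ε * ((B : ℝ) ^ r * q)) := by positivity
  calc _ ≤ (r : ℝ) ^ (2 * r) * ((q : ℝ) ^ ε * ((B : ℝ) ^ r * q)) +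
      (2 * r * 2 ^ (2 * r - 1) * C0) * ((q : ℝ) ^ ε * ((B : ℝ) ^ (2 * r) * √(q : ℝ))) :=
        add_le_add e1 e2
    _ ≤ _ := by
        have : ((r : ℝ) ^ (2 * r) + 2 * r * 2 ^ (2 * r - 1) * C0) * (q : ℝ) ^ ε *
            ((B : ℝ) ^ r * q + (B : ℝ) ^ (2 * r) * √(q : ℝ)) =
            (r : ℝ) ^ (2 * r) * ((q : ℝ) ^ ε * ((B : ℝ) ^ r * q)) +
            (2 * r * 2 ^ (2 * r - 1) * C0) * ((q : ℝ) ^ ε * ((B : ℝ) ^ (2 * r) * √(q : ℝ))) +
            ((r : ℝ) ^ (2 * r) * ((q : ℝ) ^ ε * ((B : ℝ) ^ (2 * r) * √(q : ℝ))) +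
            (2 * r * 2 ^ (2 * r - 1) * C0) * ((q : ℝ) ^ ε * ((B : ℝ) ^ r * q))) := by ring
        rw [this]
        linarith

end Pool.Agent.K1H69.Q3
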