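import Pool.Agent.K1H79.Q3.StmB

/-!
# Project Q3 (helper79), piece S_EVN: from the ideals of odd norm to all ideals
-/

set_option autoImplicit false

namespace Pool.Agent.K1H69.Q3

open Finset NumberField Pool.Agent.TH847.LS Pool.Agent.K1H79.Q3
open scoped QuadraticAlgebra Classical nonZeroDivisors

/-- an element of even norm is divisible by 2 -/
lemma two_dvd_of_even {a : E} (h : Even (nm a)) : ∃ b : E, a = 2 * b := by
  have h1 : Even (a.re ^ 2 - a.re * a.im + a.im ^ 2) := by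
    rw [← nm_cast]
    exact_mod_cast h
  have h2 : Even a.re ∧ Even a.im := by
    rcases Int.even_or_odd a.re with hx | hx <;> rcases Int.even_or_odd a.im with hy | hy
    · exact ⟨hx, hy⟩
    · exfalso
      rw [← Int.not_odd_iff_even] at h1
      apply h1
      obtain ⟨u, hu⟩ := hx
      obtain ⟨v, hv⟩ := hy
      rw [hu, hv]
      exact ⟨2 * u ^ 2 - 2 * u * v - u + 2 * v ^ 2 + 2 * v, by ring⟩
    · exfalso
      rw [← Int.not_odd_iff_even] at h1
      apply h1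
      obtain ⟨u, hu⟩ := hx
      obtain ⟨v, hv⟩ := hy
      rw [hu, hv]
      exact ⟨2 * u ^ 2 + 2 * u - 2 * u * v - v + 2 * v ^ 2, by ring⟩
    · exfalso
      rw [← Int.not_odd_iff_even] at h1
      apply h1
      obtain ⟨u, hu⟩ := hx
      obtain ⟨v, hv⟩ := hy
      rw [hu, hv]
      exact ⟨2 * u ^ 2 + 2 * v ^ 2 - 2 * u * v + u + v, by ring⟩
  obtain ⟨⟨x, hx⟩, ⟨y, hy⟩⟩ := h2
  refine ⟨⟨x, y⟩, ?_⟩
  have e2 : (2 : E) = ⟨2, 0⟩ := by
    ext <;> simp [QuadraticAlgebra.re_ofNat, QuadraticAlgebra.im_ofNat]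
  rw [e2]
  apply QuadraticAlgebra.ext
  · simp [hx]
    ring
  · simp [hy]
    ring

lemma nm_two : nm (2 : E) = 4 := by
  have h := nm_cast (2 : E)
  simp [QuadraticAlgebra.re_ofNat, QuadraticAlgebra.im_ofNat] at h
  omega

section

variable {L : Type} [Field L] [NumberField L]

/-- a prime ideal of even norm contains 2 -/
lemma two_mem {R : Ideal (𝓞 L)} (hR : R.IsPrime) (h0 : R ≠ ⊥) (he : Even (Ideal.absNorm R)) :
    (2 : 𝓞 L) ∈ R := by
  have : Finite (𝓞 L ⧸ R) := Ideal.finiteQuotientOfFreeOfNeBot R h0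
  have : Fintype (𝓞 L ⧸ R) := Fintype.ofFinite _
  have h1 : Ideal.absNorm R = Nat.card (𝓞 L ⧸ R) := by
    rw [Ideal.absNorm_apply, Submodule.cardQuot_apply]
  rw [h1] at he
  have : Fact (Nat.Prime 2) := ⟨Nat.prime_two⟩
  obtain ⟨x, hx⟩ := exists_prime_addOrderOf_dvd_card' (G := 𝓞 L ⧸ R) 2 he.two_dvd
  obtain ⟨y, rfl⟩ := Ideal.Quotient.mk_surjective x
  have hy : y ∉ R := by
    intro hy
    rw [Ideal.Quotient.eq_zero_iff_mem.2 hy, addOrderOf_zero] at hx
    norm_num at hx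
  have h2 : (2 : ℕ) • (Ideal.Quotient.mk R y) = 0 := by
    rw [← hx]
    exact addOrderOf_nsmul_eq_zero _
  rw [nsmul_eq_mul, Nat.cast_ofNat, show (2 : 𝓞 L ⧸ R) = Ideal.Quotient.mk R 2 from (map_ofNat _ 2).symm,
    ← map_mul, Ideal.Quotient.eq_zero_iff_mem] at h2
  exact (hR.mem_or_mem h2).resolve_right hy

lemma exists_pair (hN : S_NRM) (d : Dat L) : ∃ P Q : Ideal (𝓞 L), ∀ R : Ideal (𝓞 L),
    R.IsPrime → R ≠ ⊥ → Even (Ideal.absNorm R) → (R = P ∨ R = Q) ∧ 4 ≤ Ideal.absNorm R := by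
  have key : ∀ R : Ideal (𝓞 L), R.IsPrime → R ≠ ⊥ → Even (Ideal.absNorm R) →
      4 ≤ Ideal.absNorm R ∧ R * R.map (d.sg : 𝓞 L →+* 𝓞 L) ≤ Ideal.span {(2 : 𝓞 L)} := by
    intro R hR h0 he
    obtain ⟨a, ha, hna, hsp⟩ := hN L d R h0
    rw [← hna] at he
    obtain ⟨b, rfl⟩ := two_dvd_of_even he
    have hb : b ≠ 0 := by
      rintro rfl
      exact ha (mul_zero _)
    constructor
    · rw [← hna, nm_mul, nm_two]
      exact Nat.le_mul_of_pos_right _ (nm_pos hb)
    · rw [hsp, Ideal.span_singleton_le_span_singleton, map_mul, map_ofNat]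
      exact dvd_mul_right _ _
  by_cases hex : ∃ R : Ideal (𝓞 L), R.IsPrime ∧ R ≠ ⊥ ∧ Even (Ideal.absNorm R)
  · obtain ⟨P, hP, hP0, hPe⟩ := hex
    refine ⟨P, P.map (d.sg : 𝓞 L →+* 𝓞 L), fun R hR hR0 hRe => ⟨?_, (key R hR hR0 hRe).1⟩⟩
    have h2 := two_mem hR hR0 hRe
    have h3 : P * P.map (d.sg : 𝓞 L →+* 𝓞 L) ≤ R :=
      (key P hP hP0 hPe).2.trans ((Ideal.span_singleton_le_iff_mem R).2 h2)
    have mP : P.IsMaximal := hP.isMaximal hP0
    have mR : R.IsMaximal := hR.isMaximal hR0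
    rcases (Ideal.IsPrime.mul_le hR).1 h3 with h | h
    · left
      exact (mP.eq_of_le hR.ne_top h).symm
    · right
      have mQ : (P.map (d.sg : 𝓞 L →+* 𝓞 L)).IsMaximal := by
        exact Ideal.map_isMaximal_of_equiv d.sg
      exact (mQ.eq_of_le hR.ne_top h).symm
  · refine ⟨⊤, ⊤, fun R hR hR0 hRe => ?_⟩
    exact absurd ⟨R, hR, hR0, hRe⟩ hex

/-- an ideal of even norm has a prime factor of even norm -/
lemma exists_even_prime {I : Ideal (𝓞 L)} (h0 : I ≠ ⊥) (he : Even (Ideal.absNorm I)) :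
    ∃ R : Ideal (𝓞 L), R.IsPrime ∧ R ≠ ⊥ ∧ Even (Ideal.absNorm R) ∧ R ∣ I := by
  have h1 : Ideal.absNorm I =
      ((UniqueFactorizationMonoid.normalizedFactors I).map Ideal.absNorm).prod := by
    conv_lhs => rw [← Ideal.prod_normalizedFactors_eq_self h0]
    rw [map_multiset_prod]
  rw [h1] at he
  have h2 : 2 ∣ ((UniqueFactorizationMonoid.normalizedFactors I).map Ideal.absNorm).prod :=
    he.two_dvd
  obtain ⟨R, hR, hd⟩ := (Nat.prime_iff.1 Nat.prime_two).exists_mem_multiset_map_dvd h2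
  have hRp : Prime R := UniqueFactorizationMonoid.prime_of_normalized_factor R hR
  exact ⟨R, Ideal.isPrime_of_prime hRp, hRp.ne_zero, (even_iff_two_dvd).2 hd,
    UniqueFactorizationMonoid.dvd_of_mem_normalizedFactors hR⟩

lemma exists_fac {P Q : Ideal (𝓞 L)} (hPQ : ∀ R : Ideal (𝓞 L),
    R.IsPrime → R ≠ ⊥ → Even (Ideal.absNorm R) → (R = P ∨ R = Q) ∧ 4 ≤ Ideal.absNorm R) :
    ∀ (n : ℕ) (I : Ideal (𝓞 L)), Ideal.absNorm I = n → I ≠ ⊥ → ∃ (i l : ℕ) (C : Ideal (𝓞 L)),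
      I = P ^ i * Q ^ l * C ∧ C ≠ ⊥ ∧ Odd (Ideal.absNorm C) ∧
      4 ^ (i + l) * Ideal.absNorm C ≤ Ideal.absNorm I := by
  intro n
  induction n using Nat.strong_induction_on with
  | _ n ih =>
    intro I hI h0
    rcases Nat.even_or_odd (Ideal.absNorm I) with he | ho
    · obtain ⟨R, hR, hR0, hRe, J, hJ⟩ := exists_even_prime h0 he
      obtain ⟨hRPQ, hR4⟩ := hPQ R hR hR0 hRe
      have hJ0 : J ≠ ⊥ := by
        rintro rfl
        exact h0 (by rw [hJ, Ideal.mul_bot])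
      have hn : Ideal.absNorm I = Ideal.absNorm R * Ideal.absNorm J := by rw [hJ, map_mul]
      have hJp := absNorm_pos hJ0
      obtain ⟨i, l, C, hC, hC0, hCo, hle⟩ := ih (Ideal.absNorm J) (by nlinarith) J rfl hJ0
      have hle' : 4 * (4 ^ (i + l) * Ideal.absNorm C) ≤ Ideal.absNorm I := by
        rw [hn]
        exact Nat.mul_le_mul hR4 hle
      rcases hRPQ with rfl | rfl
      · refine ⟨i + 1, l, C, ?_, hC0, hCo, ?_⟩
        · rw [hJ, hC, pow_succ]
          ring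
        · refine le_trans (le_of_eq ?_) hle'
          ring
      · refine ⟨i, l + 1, C, ?_, hC0, hCo, ?_⟩
        · rw [hJ, hC, pow_succ]
          ring
        · refine le_trans (le_of_eq ?_) hle'
          ring
    · exact ⟨0, 0, I, by simp, h0, ho, by simp⟩

end

theorem t_EVN (hN : S_NRM) : S_EVN := by
  intro L _ _ d N
  obtain ⟨P, Q, hPQ⟩ := exists_pair hN d
  have hsub : FI L N ⊆ (range (N + 1)).biUnion fun j => (range (j + 1)).biUnion fun i =>
      ((FI L (N / 4 ^ j)).filter fun I => Odd (Ideal.absNorm I)).image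
        (fun C => P ^ i * Q ^ (j - i) * C) := by
    intro I hI
    rw [mem_FI] at hI
    obtain ⟨i, l, C, hC, hC0, hCo, hle⟩ := exists_fac hPQ _ I rfl hI.2
    have hCp := absNorm_pos hC0
    have h4 : 4 ^ (i + l) * Ideal.absNorm C ≤ N := hle.trans hI.1
    have hjN : i + l ≤ N := by
      have h5 : i + l < 4 ^ (i + l) := Nat.lt_pow_self (by norm_num)
      have h6 : 4 ^ (i + l) ≤ 4 ^ (i + l) * Ideal.absNorm C := Nat.le_mul_of_pos_right _ hCp
      omega
    rw [mem_biUnion]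
    refine ⟨i + l, mem_range.2 (by omega), ?_⟩
    rw [mem_biUnion]
    refine ⟨i, mem_range.2 (by omega), ?_⟩
    rw [mem_image]
    refine ⟨C, ?_, ?_⟩
    · rw [mem_filter, mem_FI]
      refine ⟨⟨?_, hC0⟩, hCo⟩
      rw [Nat.le_div_iff_mul_le (by positivity), mul_comm]
      exact h4
    · rw [hC, Nat.add_sub_cancel_left]
  refine (card_le_card hsub).trans (card_biUnion_le.trans ?_)
  refine sum_le_sum fun j _ => card_biUnion_le.trans ?_
  calc ∑ i ∈ range (j + 1), (((FI L (N / 4 ^ j)).filter fun I => Odd (Ideal.absNorm I)).image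
        (fun C => P ^ i * Q ^ (j - i) * C)).card
      ≤ ∑ _i ∈ range (j + 1), OddC L (N / 4 ^ j) := sum_le_sum fun i _ => card_image_le
    _ = (j + 1) * OddC L (N / 4 ^ j) := by rw [sum_const, card_range, smul_eq_mul]

end Pool.Agent.K1H69.Q3
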